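import Pool.Agent.H86.DB.Targets

set_option autoImplicit false

open Module MvPolynomial

namespace Pool.Agent.H40.DB

open Pool.Agent.H86.DB

universe u

theorem lin_hom {k : Type u} [Field k] {r : ℕ} (c : Fin r → k) : (lin c).IsHomogeneous 1 := by
  unfold lin
  exact IsHomogeneous.sum _ _ 1 fun i _ => isHomogeneous_C_mul_X _ _

theorem isHom_sup {k : Type u} [Field k] {r : ℕ} {J : Ideal (MvPolynomial (Fin r) k)}
    (hJ : IsHom J) (c : Fin r → k) : IsHom (J ⊔ Ideal.span {lin c}) := by
  intro p hp n
  obtain ⟨a, ha, b, hb, rfl⟩ := Submodule.mem_sup.1 hp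
  obtain ⟨b', rfl⟩ := Ideal.mem_span_singleton'.1 hb
  rw [map_add]
  refine Submodule.add_mem_sup (hJ a ha n) ?_
  have h1 : b' * lin c = ∑ i ∈ Finset.range (b'.totalDegree + 1),
      homogeneousComponent i b' * lin c := by
    rw [← Finset.sum_mul, sum_homogeneousComponent]
  rw [h1, map_sum]
  refine Ideal.sum_mem _ fun i _ => ?_
  have h2 : homogeneousComponent i b' * lin c ∈ homogeneousSubmodule (Fin r) k (i + 1) :=
    (homogeneousComponent_isHomogeneous i b').mul (lin_hom c)
  rw [homogeneousComponent_of_mem h2]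
  split_ifs
  · exact Ideal.mul_mem_left _ _ (Ideal.mem_span_singleton_self _)
  · exact Ideal.zero_mem _

theorem pf_CUT : T_CUT.{u} := by
  intro k _ r J c n hJ hinj
  refine ⟨isHom_sup hJ c, ?_⟩
  set l : MvPolynomial (Fin r) k := lin c with hl
  set J' : Ideal (MvPolynomial (Fin r) k) := J ⊔ Ideal.span {l} with hJ'
  let π : MvPolynomial (Fin r) k →ₗ[k] (MvPolynomial (Fin r) k ⧸ J) :=
    (Ideal.Quotient.mkₐ k J).toLinearMap
  let π' : MvPolynomial (Fin r) k →ₗ[k] (MvPolynomial (Fin r) k ⧸ J') :=
    (Ideal.Quotient.mkₐ k J').toLinearMap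
  let q : (MvPolynomial (Fin r) k ⧸ J) →ₗ[k] (MvPolynomial (Fin r) k ⧸ J') :=
    (Ideal.Quotient.factorₐ k (le_sup_left : J ≤ J')).toLinearMap
  have hq : q ∘ₗ π = π' := by
    ext x
    rfl
  let W : Submodule k (MvPolynomial (Fin r) k ⧸ J) := (homogeneousSubmodule (Fin r) k (n + 1)).map π
  let U : Submodule k (MvPolynomial (Fin r) k ⧸ J) := (homogeneousSubmodule (Fin r) k n).map π
  have hWfin : Module.Finite k W := by
    rw [Module.Finite.iff_fg]
    exact (homogeneousSubmodule_fg (Fin r) k (n + 1)).map π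
  have hmap : (homogeneousSubmodule (Fin r) k (n + 1)).map π' = W.map q := by
    rw [← hq, Submodule.map_comp]
  have h1 := LinearMap.finrank_range_add_finrank_ker (q.domRestrict W)
  have h2 : LinearMap.range (q.domRestrict W) = W.map q := by
    rw [LinearMap.range_domRestrict]
  -- multiplication by `l`
  have hU : ∀ u : U, Ideal.Quotient.mk J l * (u : MvPolynomial (Fin r) k ⧸ J) ∈ W := by
    rintro ⟨_, p, hp, rfl⟩
    refine ⟨l * p, ?_, ?_⟩
    · have := (lin_hom c).mul hp
      rw [add_comm 1 n] at this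
      exact this
    · exact map_mul (Ideal.Quotient.mk J) l p
  let f : U →ₗ[k] LinearMap.ker (q.domRestrict W) :=
    { toFun := fun u => ⟨⟨Ideal.Quotient.mk J l * (u : MvPolynomial (Fin r) k ⧸ J), hU u⟩, by
        obtain ⟨_, p, hp, rfl⟩ := u
        rw [LinearMap.mem_ker, LinearMap.domRestrict_apply]
        change Ideal.Quotient.mk J' (l * p) = 0
        rw [Ideal.Quotient.eq_zero_iff_mem]
        exact Ideal.mul_mem_right _ _ (Submodule.mem_sup_right (Ideal.mem_span_singleton_self l))⟩
      map_add' := fun a b => by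
        apply Subtype.ext
        apply Subtype.ext
        exact mul_add _ _ _
      map_smul' := fun a b => by
        apply Subtype.ext
        apply Subtype.ext
        exact mul_smul_comm _ _ _ }
  have hf : Function.Injective f := by
    rw [injective_iff_map_eq_zero]
    rintro ⟨_, p, hp, rfl⟩ h0
    have h3 : Ideal.Quotient.mk J (l * p) = 0 := congrArg
      (fun v : LinearMap.ker (q.domRestrict W) => ((v : W) : MvPolynomial (Fin r) k ⧸ J)) h0
    rw [Ideal.Quotient.eq_zero_iff_mem] at h3
    apply Subtype.ext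
    exact Ideal.Quotient.eq_zero_iff_mem.2 (hinj p hp h3)
  have h4 := LinearMap.finrank_le_finrank_of_injective hf
  change finrank k ((homogeneousSubmodule (Fin r) k (n + 1)).map π') + finrank k U ≤ finrank k W
  rw [hmap, ← h2]
  omega

end Pool.Agent.H40.DB
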