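import Pool.Agent.H86.DB.Targets

set_option autoImplicit false

open Module MvPolynomial

namespace Pool.Agent.H40.DB

open Pool.Agent.H86.DB

universe u

/-- iteration of a reduction step -/
theorem red_iter {P : Type u} [CommRing P] (I J : Ideal P) (N : ℕ)
    (h : I ^ (N + 1) ≤ J * I ^ N ⊔ I ^ (N + 2)) :
    ∀ n M : ℕ, I ^ (N + n) ≤ J ^ n ⊔ I ^ M := by
  have h2 : ∀ j : ℕ, I ^ (N + 1 + j) ≤ J * I ^ (N + j) ⊔ I ^ (N + 1 + (j + 1)) := by
    intro j
    have h3' : I ^ (N + 1) * I ^ j ≤ (J * I ^ N ⊔ I ^ (N + 2)) * I ^ j := Ideal.mul_mono_left h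
    have e1 : I ^ (N + 1 + j) = I ^ (N + 1) * I ^ j := pow_add _ _ _
    have e2 : (J * I ^ N ⊔ I ^ (N + 2)) * I ^ j = J * I ^ (N + j) ⊔ I ^ (N + 1 + (j + 1)) := by
      rw [Ideal.sup_mul, mul_assoc, ← pow_add, ← pow_add]
      congr 2
      omega
    rw [e1, ← e2]
    exact h3'
  have h4 : ∀ t j : ℕ, I ^ (N + 1 + j) ≤ J * I ^ (N + j) ⊔ I ^ (N + 1 + j + t) := by
    intro t
    induction t with
    | zero => intro j; exact le_sup_right
    | succ t ih =>
      intro j
      refine (h2 j).trans (sup_le le_sup_left ?_)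
      have h5 := ih (j + 1)
      refine h5.trans (sup_le ?_ ?_)
      · exact le_trans (Ideal.mul_mono_right (Ideal.pow_le_pow_right (by omega))) le_sup_left
      · have e : N + 1 + (j + 1) + t = N + 1 + j + (t + 1) := by omega
        rw [e]
        exact le_sup_right
  have h6 : ∀ j M : ℕ, I ^ (N + 1 + j) ≤ J * I ^ (N + j) ⊔ I ^ M := by
    intro j M
    exact (h4 M j).trans (sup_le_sup_left (Ideal.pow_le_pow_right (by omega)) _)
  intro n
  induction n with
  | zero => intro M; rw [pow_zero, Ideal.one_eq_top, top_sup_eq]; exact le_top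
  | succ n ih =>
    intro M
    have e : N + (n + 1) = N + 1 + n := by omega
    rw [e]
    refine (h6 n M).trans (sup_le ?_ le_sup_right)
    refine (Ideal.mul_mono_right (ih M)).trans ?_
    rw [Ideal.mul_sup, ← pow_succ']
    exact sup_le_sup_left Ideal.mul_le_right _

theorem pf_PERT (hR : T_RED.{u}) : T_PERT.{u} := by
  intro k _ _ m I hI
  obtain ⟨f, N, hf, hN⟩ := hR k m I hI
  obtain ⟨s, hs⟩ := hI
  set R : ℕ := (∑ j, (f j).totalDegree) + 2 * s + 1 with hRdef
  have hX2 : ∀ j : Fin m, (X j : MvPolynomial (Fin m) k) ^ R ∈ I ^ 2 := by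
    intro j
    have h1 : (X j : MvPolynomial (Fin m) k) ^ R ∈
        Ideal.span (Set.range (X : Fin m → MvPolynomial (Fin m) k)) ^ R :=
      Ideal.pow_mem_pow (Ideal.subset_span (Set.mem_range_self j)) R
    have h2 : Ideal.span (Set.range (X : Fin m → MvPolynomial (Fin m) k)) ^ R ≤ I ^ 2 := by
      refine (Ideal.pow_le_pow_right (show s * 2 ≤ R by omega)).trans ?_
      rw [pow_mul]
      exact Ideal.pow_right_mono hs 2
    exact h2 h1
  have hXI : ∀ j : Fin m, (X j : MvPolynomial (Fin m) k) ^ R ∈ I := fun j =>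
    (Ideal.pow_le_self two_ne_zero) (hX2 j)
  refine ⟨fun j => f j + X j ^ R, R, N, ?_, fun j => I.add_mem (hf j) (hXI j), ?_⟩
  · intro j
    rw [add_sub_cancel_right]
    have : (f j).totalDegree ≤ ∑ j, (f j).totalDegree :=
      Finset.single_le_sum (f := fun j => (f j).totalDegree) (fun _ _ => Nat.zero_le _)
        (Finset.mem_univ j)
    omega
  · refine red_iter I _ N (hN.trans (sup_le ?_ le_sup_right))
    rw [Ideal.mul_le]
    intro a ha x hx
    induction ha using Submodule.span_induction with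
    | mem a ha =>
      obtain ⟨j, rfl⟩ := ha
      have e : f j * x = (f j + X j ^ R) * x + (-x) * X j ^ R := by ring
      rw [e]
      refine Submodule.add_mem_sup (Ideal.mul_mem_mul (Ideal.subset_span ⟨j, rfl⟩) hx) ?_
      rw [pow_add]
      exact Ideal.mul_mem_mul (neg_mem hx) (hX2 j)
    | zero => rw [zero_mul]; exact Ideal.zero_mem _
    | add a b _ _ h1 h2 => rw [add_mul]; exact Ideal.add_mem _ h1 h2
    | smul c a _ h1 => rw [smul_eq_mul, mul_assoc]; exact Ideal.mul_mem_left _ _ h1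

end Pool.Agent.H40.DB
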